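import Pool.Agent.Q207.UR.KM

open Q207.UR in
/-- There is a model of Kelley-Morse class theory with urelements (Replacement version) in which
Collection and Global Choice hold and `ω`-DC fails. -/
theorem Pool.Agent.Results.MP_0641b4_lc.Disproof.result :
    ∃ (V C : Type 1) (S : Str V C),
      KMU S ∧ Collection S ∧ GlobalChoice S ∧ ¬ OmegaDC S :=
  ⟨VV, CC, MM, kmu, collection, globalChoice, not_omegaDC⟩
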